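import Mathlib
import Pool.Agent.Work.MP_d3656f_al.Defs

/-!
# T/Hom : homogenisation of a quasimorphism, and basic properties

`homog`: let `f : L → ℝ` satisfy `|f (x y) - f x - f y| ≤ D`. Then `|f (x^n) - n f x| ≤ n D`
hence `|f (x^(n m)) - n f (x^m)| ≤ n D`, so `f (x^n)/n` is a Cauchy sequence
(`|f (x^n)/n - f (x^m)/m| ≤ D/n + D/m`), the limit `q x` satisfies `|q x - f x| ≤ D`,
`q (x^n) = n q x` (limit along the multiples of `n`), `|q (x y) - q x - q y| ≤ 4 D`.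

For a homogeneous quasimorphism `q` on a group (defect `D`):
* `hqm_comm`: `x y = y x` implies `q (x y) = q x + q y`:
  `n |q (x y) - q x - q y| = |q (x^n y^n) - q (x^n) - q (y^n)| ≤ D`.
* `hqm_conj`: `q (y x y⁻¹) = q x`: `n |q (y x y⁻¹) - q x| = |q (y x^n y⁻¹) - q (x^n)| ≤ c` with
  `c = 2 D + |q y + q y⁻¹|`.
* `hqm_one`: `q 1 = 0` (`q (1^2) = 2 q 1`); `hqm_inv`: `q x⁻¹ = - q x` by `hqm_comm`.
* `hqm_zpow`.
-/

set_option autoImplicit false

namespace Pool.Agent.Work.MP_d3656f_al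

private theorem hom_pow {L : Type} [Group L] (f : L → ℝ) (D : ℝ)
    (hf : ∀ x y : L, |f (x * y) - f x - f y| ≤ D) (x : L) (n : ℕ) :
    |f (x ^ n) - n * f x| ≤ (n + 1) * D := by
  induction n with
  | zero =>
    have h := hf 1 1
    rw [mul_one] at h
    have e : f 1 - f 1 - f 1 = -f 1 := by ring
    rw [e, abs_neg] at h
    simpa using h
  | succ n ih =>
    have h := hf (x ^ n) x
    rw [← pow_succ] at h
    have e : f (x ^ (n + 1)) - ((n + 1 : ℕ) : ℝ) * f x =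
        (f (x ^ (n + 1)) - f (x ^ n) - f x) + (f (x ^ n) - n * f x) := by
      push_cast
      ring
    rw [e]
    calc _ ≤ |f (x ^ (n + 1)) - f (x ^ n) - f x| + |f (x ^ n) - n * f x| := abs_add_le _ _
      _ ≤ D + (n + 1) * D := add_le_add h ih
      _ = (((n + 1 : ℕ) : ℝ) + 1) * D := by
        push_cast
        ring

private theorem hom_arch {δ C : ℝ} (h : ∀ n : ℕ, n * |δ| ≤ C) : δ = 0 := by
  by_contra h0
  have hp : 0 < |δ| := abs_pos.2 h0
  obtain ⟨n, hn⟩ := exists_nat_gt (C / |δ|)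
  rw [div_lt_iff₀ hp] at hn
  exact absurd (h n) (not_le.2 hn)

theorem homog {L : Type} [Group L] (f : L → ℝ) (D : ℝ)
    (hf : ∀ x y : L, |f (x * y) - f x - f y| ≤ D) :
    ∃ q : L → ℝ, (∀ x, |q x - f x| ≤ D) ∧ (∀ x (n : ℕ), q (x ^ n) = n * q x) ∧
      (∀ x y : L, |q (x * y) - q x - q y| ≤ 4 * D) := by
  have h2 : ∀ x, |f (x ^ 2) - 2 * f x| ≤ D := by
    intro x
    have h := hf x x
    rw [← pow_two] at h
    have e : f (x ^ 2) - 2 * f x = f (x ^ 2) - f x - f x := by ring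
    rw [e]
    exact h
  have hstep : ∀ x : L, ∀ k : ℕ, dist (f (x ^ 2 ^ k) / 2 ^ k) (f (x ^ 2 ^ (k + 1)) / 2 ^ (k + 1)) ≤
      D / 2 / 2 ^ k := by
    intro x k
    have h := h2 (x ^ 2 ^ k)
    rw [← pow_mul, ← pow_succ] at h
    rw [Real.dist_eq, abs_sub_comm]
    have hp : (0 : ℝ) < 2 ^ (k + 1) := by positivity
    have e : f (x ^ 2 ^ (k + 1)) / 2 ^ (k + 1) - f (x ^ 2 ^ k) / 2 ^ k =
        (f (x ^ 2 ^ (k + 1)) - 2 * f (x ^ 2 ^ k)) / 2 ^ (k + 1) := by
      have hp2 : (2 : ℝ) ^ k ≠ 0 := by positivity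
      have hp3 : (2 : ℝ) ^ (k + 1) = 2 ^ k * 2 := pow_succ _ _
      rw [sub_div, sub_right_inj, hp3]
      field_simp
    have e2 : D / 2 / 2 ^ k = D / 2 ^ (k + 1) := by
      rw [pow_succ]
      field_simp
    rw [e, e2, abs_div, abs_of_pos hp]
    exact div_le_div_of_nonneg_right h hp.le
  have hlim : ∀ x : L, ∃ l, Filter.Tendsto (fun k : ℕ => f (x ^ 2 ^ k) / 2 ^ k) Filter.atTop
      (nhds l) := fun x => cauchySeq_tendsto_of_complete (cauchySeq_of_le_geometric_two (hstep x))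
  choose q hq using hlim
  have hqf : ∀ x, |q x - f x| ≤ D := by
    intro x
    have h := dist_le_of_le_geometric_two_of_tendsto₀ (hstep x) (hq x)
    rw [Real.dist_eq, pow_zero, pow_zero, pow_one, div_one, abs_sub_comm] at h
    exact h
  refine ⟨q, hqf, ?_, ?_⟩
  · intro x n
    have h1 := hq (x ^ n)
    have h3 := (hq x).const_mul (n : ℝ)
    have h4 : Filter.Tendsto (fun k : ℕ => f ((x ^ n) ^ 2 ^ k) / 2 ^ k -
        n * (f (x ^ 2 ^ k) / 2 ^ k)) Filter.atTop (nhds 0) := by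
      have h5 : Filter.Tendsto (fun k : ℕ => ((n : ℝ) + 1) * D * (1 / 2 : ℝ) ^ k) Filter.atTop
          (nhds 0) := by
        have h6 := (tendsto_pow_atTop_nhds_zero_of_lt_one (r := (1 / 2 : ℝ)) (by norm_num)
          (by norm_num)).const_mul (((n : ℝ) + 1) * D)
        rw [mul_zero] at h6
        exact h6
      refine squeeze_zero_norm (fun k => ?_) h5
      have h6 := hom_pow f D hf (x ^ 2 ^ k) n
      have hp : (0 : ℝ) < 2 ^ k := by positivity
      have e : (x ^ n) ^ 2 ^ k = (x ^ 2 ^ k) ^ n := by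
        rw [← pow_mul, ← pow_mul, mul_comm]
      rw [e, Real.norm_eq_abs]
      have e2 : f ((x ^ 2 ^ k) ^ n) / 2 ^ k - n * (f (x ^ 2 ^ k) / 2 ^ k) =
          (f ((x ^ 2 ^ k) ^ n) - n * f (x ^ 2 ^ k)) / 2 ^ k := by ring
      rw [e2, abs_div, abs_of_pos hp]
      calc |f ((x ^ 2 ^ k) ^ n) - n * f (x ^ 2 ^ k)| / 2 ^ k ≤ ((n : ℝ) + 1) * D / 2 ^ k :=
            div_le_div_of_nonneg_right h6 hp.le
        _ = ((n : ℝ) + 1) * D * (1 / 2 : ℝ) ^ k := by
            rw [one_div, inv_pow, div_eq_mul_inv]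
    have h5 := tendsto_nhds_unique (h1.sub h3) h4
    linarith
  · intro x y
    have h1 := hqf (x * y)
    have h3 := hqf x
    have h4 := hqf y
    have h5 := hf x y
    rw [abs_le] at *
    constructor <;> linarith

theorem hqm_comm {A : Type} [Group A] {H : Subgroup A} {q : A → ℝ} (h : HQM H q) {x y : A}
    (hx : x ∈ H) (hy : y ∈ H) (hxy : x * y = y * x) : q (x * y) = q x + q y := by
  obtain ⟨⟨D, hD⟩, hh⟩ := h
  have h1 : ∀ n : ℕ, n * |q (x * y) - q x - q y| ≤ D := by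
    intro n
    have h2 := hD (x ^ n) (pow_mem hx n) (y ^ n) (pow_mem hy n)
    rw [← (show Commute x y from hxy).mul_pow, hh _ (mul_mem hx hy), hh _ hx, hh _ hy] at h2
    have e : (n : ℝ) * q (x * y) - n * q x - n * q y = n * (q (x * y) - q x - q y) := by ring
    rw [e, abs_mul, abs_of_nonneg (Nat.cast_nonneg n)] at h2
    exact h2
  have h3 := hom_arch h1
  linarith

theorem hqm_conj {A : Type} [Group A] {H : Subgroup A} {q : A → ℝ} (h : HQM H q) {x y : A}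
    (hx : x ∈ H) (hy : y ∈ H) : q (y * x * y⁻¹) = q x := by
  obtain ⟨⟨D, hD⟩, hh⟩ := h
  have h1 : ∀ n : ℕ, n * |q (y * x * y⁻¹) - q x| ≤ 2 * D + |q y + q y⁻¹| := by
    intro n
    have hxn := pow_mem hx n
    have h2 := hD (y * x ^ n) (mul_mem hy hxn) y⁻¹ (inv_mem hy)
    have h3 := hD y hy (x ^ n) hxn
    rw [← conj_pow, hh _ (mul_mem (mul_mem hy hx) (inv_mem hy))] at h2
    rw [hh _ hx] at h3
    have e : (n : ℝ) * |q (y * x * y⁻¹) - q x| = |(n * q (y * x * y⁻¹) - q (y * x ^ n) - q y⁻¹) +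
        (q (y * x ^ n) - q y - n * q x) + (q y + q y⁻¹)| := by
      rw [← abs_of_nonneg (Nat.cast_nonneg n : (0 : ℝ) ≤ n), ← abs_mul,
        abs_of_nonneg (Nat.cast_nonneg n : (0 : ℝ) ≤ n)]
      congr 1
      ring
    rw [e]
    calc _ ≤ |(n * q (y * x * y⁻¹) - q (y * x ^ n) - q y⁻¹) +
        (q (y * x ^ n) - q y - n * q x)| + |q y + q y⁻¹| := abs_add_le _ _
      _ ≤ (|n * q (y * x * y⁻¹) - q (y * x ^ n) - q y⁻¹| +
        |q (y * x ^ n) - q y - n * q x|) + |q y + q y⁻¹| :=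
        add_le_add_left (abs_add_le _ _) _
      _ ≤ (D + D) + |q y + q y⁻¹| := by linarith
      _ = 2 * D + |q y + q y⁻¹| := by ring
  have h3 := hom_arch h1
  linarith

theorem hqm_one {A : Type} [Group A] {H : Subgroup A} {q : A → ℝ} (h : HQM H q) : q 1 = 0 := by
  have h1 := h.2 1 (one_mem H) 2
  rw [one_pow] at h1
  push_cast at h1
  linarith

theorem hqm_inv {A : Type} [Group A] {H : Subgroup A} {q : A → ℝ} (h : HQM H q) {x : A}
    (hx : x ∈ H) : q x⁻¹ = - q x := by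
  have h1 := hqm_comm h hx (inv_mem hx) (by rw [mul_inv_cancel, inv_mul_cancel])
  rw [mul_inv_cancel, hqm_one h] at h1
  linarith

theorem hqm_zpow {A : Type} [Group A] {H : Subgroup A} {q : A → ℝ} (h : HQM H q) {x : A}
    (hx : x ∈ H) (n : ℤ) : q (x ^ n) = n * q x := by
  cases n with
  | ofNat n =>
    rw [Int.ofNat_eq_natCast, zpow_natCast, h.2 x hx n, Int.cast_natCast]
  | negSucc n =>
    rw [zpow_negSucc, hqm_inv h (pow_mem hx _), h.2 x hx, Int.cast_negSucc]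
    push_cast
    ring

end Pool.Agent.Work.MP_d3656f_al
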