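import Mathlib
import Pool.Agent.Work.MP_d3656f_al.T.Hom

/-!
# T/Tr : translation numbers relative to a central element

`L` acts on the real line by order isomorphisms, `I` is a nonempty open convex invariant set,
`d ∈ L` is central and has no fixed point in `I`.

Proof of `transl`.
1. By the intermediate value theorem (order isomorphisms of `ℝ` are continuous) `h d x - x` has
   constant sign on `I`. Assume `h d x > x` on `I` (the other case: apply the result to the order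
   isomorphisms `x ↦ - h ℓ (-x)` and the set `-I`; or to `d⁻¹` and take `-q`).
2. For `x, y ∈ I` there is `k : ℕ` with `h (d^k) x > y`: otherwise the increasing sequence
   `h (d^k) x` is bounded by `y`, its limit `z` satisfies `x ≤ z ≤ y`, so `z ∈ I`, and
   `h d z = z` by continuity. In the same way there is `k` with `h (d^(-k)) x < y`.
3. Fix `x ∈ I`. For `ℓ ∈ L` let `n ℓ : ℤ` be the unique integer with
   `h (d^(n ℓ)) x ≤ h ℓ x < h (d^(n ℓ + 1)) x`. Then `n (ℓ m) - n ℓ - n m ∈ {0, 1}`: apply `h ℓ`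
   to the inequality for `m` and use that `d` is central:
   `h (d^(n m)) (h ℓ x) ≤ h (ℓ m) x < h (d^(n m + 1)) (h ℓ x)`. So `n` is a quasimorphism of defect
   `1`; let `q` be from `homog`, `|q - n| ≤ 1`. `n (d^k) = k`, so `q d = 1`
   (`|k q d - k| ≤ 1` for all `k`).
4. If `h ℓ y = y` for some `y ∈ I`: let `a ≥ 0` be an integer with
   `h (d^(-a)) x ≤ y ≤ h (d^a) x`. Then `x ≤ h (d^a) y` gives
   `h (ℓ^k) x ≤ h (ℓ^k) (h (d^a) y) = h (d^a) y ≤ h (d^(2a)) x`, and in the same way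
   `h (ℓ^k) x ≥ h (d^(-2a)) x`, so `n (ℓ^k)` is bounded, and `q ℓ = 0`.
5. If `h ℓ` has no fixed point in `I`, then by 1 `h ℓ y > y` on `I` or `h ℓ y < y` on `I`. In the
   first case by the argument of 2 (which does not use that `d` is central) there is `k` with
   `h (ℓ^k) x ≥ h d x`, hence `h (ℓ^(k j)) x ≥ h (d^j) x` for all `j` (induction, `d` central), so
   `n (ℓ^(k j)) ≥ j` and `q ℓ ≥ 1/k > 0`. In the second case `q ℓ < 0` (apply this to `ℓ⁻¹`, `hqm_inv`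
   or directly).
-/

set_option autoImplicit false

namespace Pool.Agent.Work.MP_d3656f_al

/-- If `f` has no fixed point on a convex set and preserves it then `f x - x` has a sign. -/
theorem sign_const (f : ℝ ≃o ℝ) (I : Set ℝ) (hI : I.OrdConnected) (hfree : ∀ x ∈ I, f x ≠ x) :
    (∀ x ∈ I, x < f x) ∨ (∀ x ∈ I, f x < x) := by
  by_contra hcon
  push Not at hcon
  obtain ⟨⟨x, hx, hx1⟩, ⟨y, hy, hy1⟩⟩ := hcon
  obtain ⟨z, hz, hz1⟩ := hI.isPreconnected.intermediate_value₂ hx hy (f := fun t => f t)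
    (g := fun t => t) f.continuous.continuousOn continuousOn_id hx1 hy1
  exact hfree z hz hz1

section transl

variable {L : Type} [Group L]

private theorem tr_mul (h : L →* (ℝ ≃o ℝ)) (ℓ m : L) (x : ℝ) : h (ℓ * m) x = h ℓ (h m x) := by
  rw [map_mul]
  rfl

private theorem tr_inv (h : L →* (ℝ ≃o ℝ)) (ℓ : L) (x : ℝ) : h ℓ⁻¹ (h ℓ x) = x := by
  rw [← tr_mul, inv_mul_cancel, map_one]
  rfl

private theorem tr_inv' (h : L →* (ℝ ≃o ℝ)) (ℓ : L) (x : ℝ) : h ℓ (h ℓ⁻¹ x) = x := by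
  rw [← tr_mul, mul_inv_cancel, map_one]
  rfl

private theorem tr_one (h : L →* (ℝ ≃o ℝ)) (x : ℝ) : h 1 x = x := by
  rw [map_one]
  rfl

private theorem tr_up (h : L →* (ℝ ≃o ℝ)) (I : Set ℝ) (hI : I.OrdConnected)
    (hinv : ∀ (ℓ : L) (x : ℝ), x ∈ I → h ℓ x ∈ I) (ℓ : L) (hpos : ∀ x ∈ I, x < h ℓ x) {x y : ℝ}
    (hx : x ∈ I) (hy : y ∈ I) : ∃ k : ℕ, y < h (ℓ ^ k) x := by
  by_contra hcon
  push Not at hcon
  have hsucc : ∀ k : ℕ, h (ℓ ^ (k + 1)) x = h ℓ (h (ℓ ^ k) x) := fun k => by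
    rw [pow_succ', tr_mul]
  have hmono : Monotone (fun k : ℕ => h (ℓ ^ k) x) := by
    refine monotone_nat_of_le_succ fun k => ?_
    rw [hsucc]
    exact (hpos _ (hinv _ _ hx)).le
  have hbdd : BddAbove (Set.range (fun k : ℕ => h (ℓ ^ k) x)) := ⟨y, by
    rintro _ ⟨k, rfl⟩
    exact hcon k⟩
  have hlim := tendsto_atTop_ciSup hmono hbdd
  set z : ℝ := ⨆ k : ℕ, h (ℓ ^ k) x with hz
  have hz1 : x ≤ z := by
    have h0 : h (ℓ ^ 0) x ≤ z := le_ciSup hbdd 0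
    rw [pow_zero, tr_one] at h0
    exact h0
  have hz2 : z ≤ y := ciSup_le fun k => hcon k
  have hzI : z ∈ I := hI.out hx hy ⟨hz1, hz2⟩
  have h1 : Filter.Tendsto (fun k : ℕ => h ℓ (h (ℓ ^ k) x)) Filter.atTop (nhds (h ℓ z)) :=
    ((h ℓ).continuous.tendsto z).comp hlim
  have h2 : Filter.Tendsto (fun k : ℕ => h (ℓ ^ (k + 1)) x) Filter.atTop (nhds z) :=
    hlim.comp (Filter.tendsto_add_atTop_nat 1)
  have h3 : h ℓ z = z := by
    refine tendsto_nhds_unique h1 (h2.congr fun k => ?_)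
    exact hsucc k
  exact absurd h3 (hpos z hzI).ne'

private theorem tr_arch {a C : ℝ} (hC : ∀ k : ℕ, |k * a| ≤ C) : a = 0 := by
  by_contra ha
  have ha' : 0 < |a| := abs_pos.2 ha
  obtain ⟨k, hk⟩ := exists_nat_gt (C / |a|)
  have h1 := hC k
  rw [abs_mul, Nat.abs_cast] at h1
  rw [div_lt_iff₀ ha'] at hk
  linarith

private theorem tr_qinv {q : L → ℝ} {D : ℝ} (hq : ∀ x y : L, |q (x * y) - q x - q y| ≤ D)
    (hh : ∀ (x : L) (n : ℕ), q (x ^ n) = n * q x) (ℓ : L) : q ℓ⁻¹ = -q ℓ := by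
  have h1 : q 1 = 0 := by
    have := hh 1 2
    rw [one_pow] at this
    push_cast at this
    linarith
  have h2 : q ℓ + q ℓ⁻¹ = 0 := by
    refine tr_arch (C := D) fun k => ?_
    have h3 := hq (ℓ ^ k) (ℓ⁻¹ ^ k)
    rw [inv_pow, mul_inv_cancel, h1, ← inv_pow, hh, hh] at h3
    rw [← abs_neg]
    refine le_trans (le_of_eq ?_) h3
    congr 1
    ring
  linarith

private theorem transl_pos (h : L →* (ℝ ≃o ℝ)) (I : Set ℝ) (hI : I.OrdConnected)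
    (hne : I.Nonempty) (hinv : ∀ (ℓ : L) (x : ℝ), x ∈ I → h ℓ x ∈ I) (d : L)
    (hd : ∀ ℓ : L, d * ℓ = ℓ * d) (hpos : ∀ x ∈ I, x < h d x) :
    ∃ q : L → ℝ, (∃ D : ℝ, ∀ x y : L, |q (x * y) - q x - q y| ≤ D) ∧
      (∀ (x : L) (n : ℕ), q (x ^ n) = n * q x) ∧ q d = 1 ∧
      (∀ ℓ : L, (∃ x ∈ I, h ℓ x = x) → q ℓ = 0) ∧
      (∀ ℓ : L, (∀ x ∈ I, h ℓ x ≠ x) → q ℓ ≠ 0) := by
  obtain ⟨x, hx⟩ := hne
  have hcom : ∀ (k : ℤ) (ℓ : L), d ^ k * ℓ = ℓ * d ^ k := fun k ℓ =>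
    ((show Commute d ℓ from hd ℓ).zpow_left k)
  have hcomx : ∀ (k : ℤ) (ℓ : L) (y : ℝ), h ℓ (h (d ^ k) y) = h (d ^ k) (h ℓ y) := by
    intro k ℓ y
    rw [← tr_mul, ← tr_mul, hcom]
  have hadd : ∀ (j k : ℤ) (y : ℝ), h (d ^ j) (h (d ^ k) y) = h (d ^ (j + k)) y := by
    intro j k y
    rw [← tr_mul, zpow_add]
  have hsm : ∀ y ∈ I, StrictMono (fun k : ℤ => h (d ^ k) y) := by
    intro y hy
    refine strictMono_int_of_lt_succ fun k => ?_
    have h1 : h (d ^ (k + 1)) y = h d (h (d ^ k) y) := by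
      rw [← tr_mul, add_comm k 1, zpow_add, zpow_one]
    rw [h1]
    exact hpos _ (hinv _ _ hy)
  have hup : ∀ y ∈ I, ∀ z ∈ I, ∃ k : ℕ, z < h (d ^ (k : ℤ)) y := by
    intro y hy z hz
    obtain ⟨k, hk⟩ := tr_up h I hI hinv d hpos hy hz
    exact ⟨k, by rw [zpow_natCast]; exact hk⟩
  have hdown : ∀ y ∈ I, ∀ z ∈ I, ∃ k : ℕ, h (d ^ (-(k : ℤ))) y < z := by
    intro y hy z hz
    obtain ⟨k, hk⟩ := hup z hz y hy
    refine ⟨k, ?_⟩
    have h1 := (h (d ^ (-(k : ℤ)))).strictMono hk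
    rw [hadd, neg_add_cancel, zpow_zero, tr_one] at h1
    exact h1
  have hex : ∀ ℓ : L, ∃ n : ℤ, h (d ^ n) x ≤ h ℓ x ∧ h ℓ x < h (d ^ (n + 1)) x := by
    intro ℓ
    obtain ⟨a, ha⟩ := hup x hx (h ℓ x) (hinv _ _ hx)
    obtain ⟨b, hb⟩ := hdown x hx (h ℓ x) (hinv _ _ hx)
    obtain ⟨n, hn1, hn2⟩ := Int.exists_greatest_of_bdd (P := fun n : ℤ => h (d ^ n) x ≤ h ℓ x)
      ⟨a, fun z hz => by
        have h1 : h (d ^ z) x < h (d ^ (a : ℤ)) x := lt_of_le_of_lt hz ha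
        exact ((hsm x hx).lt_iff_lt.1 h1).le⟩ ⟨-(b : ℤ), hb.le⟩
    refine ⟨n, hn1, ?_⟩
    by_contra hc
    push Not at hc
    have := hn2 (n + 1) hc
    omega
  choose n hn1 hn2 using hex
  have hle : ∀ (ℓ : L) (k : ℤ), h ℓ x ≤ h (d ^ k) x → n ℓ ≤ k := fun ℓ k hk =>
    (hsm x hx).le_iff_le.1 ((hn1 ℓ).trans hk)
  have hlt : ∀ (ℓ : L) (k : ℤ), h ℓ x < h (d ^ k) x → n ℓ < k := fun ℓ k hk =>
    (hsm x hx).lt_iff_lt.1 (lt_of_le_of_lt (hn1 ℓ) hk)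
  have hge : ∀ (ℓ : L) (k : ℤ), h (d ^ k) x ≤ h ℓ x → k ≤ n ℓ := fun ℓ k hk =>
    Int.lt_add_one_iff.1 ((hsm x hx).lt_iff_lt.1 (lt_of_le_of_lt hk (hn2 ℓ)))
  have hdef : ∀ ℓ m : L, n ℓ + n m ≤ n (ℓ * m) ∧ n (ℓ * m) < n ℓ + n m + 2 := by
    intro ℓ m
    constructor
    · apply hge
      calc h (d ^ (n ℓ + n m)) x = h (d ^ (n m)) (h (d ^ (n ℓ)) x) := by rw [hadd, add_comm]
        _ ≤ h (d ^ (n m)) (h ℓ x) := (h (d ^ (n m))).monotone (hn1 ℓ)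
        _ = h ℓ (h (d ^ (n m)) x) := (hcomx _ _ _).symm
        _ ≤ h ℓ (h m x) := (h ℓ).monotone (hn1 m)
        _ = h (ℓ * m) x := (tr_mul _ _ _ _).symm
    · apply hlt
      calc h (ℓ * m) x = h ℓ (h m x) := tr_mul _ _ _ _
        _ < h ℓ (h (d ^ (n m + 1)) x) := (h ℓ).strictMono (hn2 m)
        _ = h (d ^ (n m + 1)) (h ℓ x) := hcomx _ _ _
        _ < h (d ^ (n m + 1)) (h (d ^ (n ℓ + 1)) x) := (h (d ^ (n m + 1))).strictMono (hn2 ℓ)
        _ = h (d ^ (n ℓ + n m + 2)) x := by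
            rw [hadd]
            congr 3
            ring
  obtain ⟨q, hq1, hq2, hq3⟩ := homog (fun ℓ => (n ℓ : ℝ)) 1 (by
    intro ℓ m
    obtain ⟨h1, h2⟩ := hdef ℓ m
    have h3 : n (ℓ * m) ≤ n ℓ + n m + 1 := by omega
    have h1' : (n ℓ : ℝ) + n m ≤ n (ℓ * m) := by exact_mod_cast h1
    have h3' : (n (ℓ * m) : ℝ) ≤ n ℓ + n m + 1 := by exact_mod_cast h3
    rw [abs_le]
    constructor <;> linarith)
  have hposq : ∀ ℓ : L, (∀ y ∈ I, y < h ℓ y) → 0 < q ℓ := by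
    intro ℓ hℓ
    obtain ⟨k, hk⟩ := tr_up h I hI hinv ℓ hℓ hx (hinv d x hx)
    have h1 : ∀ j : ℕ, h (d ^ (j : ℤ)) x ≤ h (ℓ ^ (k * j)) x := by
      intro j
      induction j with
      | zero => simp
      | succ j ih =>
        have e1 : h (d ^ ((j + 1 : ℕ) : ℤ)) x = h (d ^ (1 : ℤ)) (h (d ^ (j : ℤ)) x) := by
          rw [hadd]
          congr 3
          push_cast
          ring
        have e2 : h (ℓ ^ (k * (j + 1))) x = h (ℓ ^ (k * j)) (h (ℓ ^ k) x) := by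
          rw [← tr_mul, ← pow_add, mul_add, mul_one]
        rw [e1, e2]
        calc h (d ^ (1 : ℤ)) (h (d ^ (j : ℤ)) x) ≤ h (d ^ (1 : ℤ)) (h (ℓ ^ (k * j)) x) :=
              (h (d ^ (1 : ℤ))).monotone ih
          _ = h (ℓ ^ (k * j)) (h (d ^ (1 : ℤ)) x) := (hcomx _ _ _).symm
          _ ≤ h (ℓ ^ (k * j)) (h (ℓ ^ k) x) := by
              apply (h (ℓ ^ (k * j))).monotone
              rw [zpow_one]
              exact hk.le
    have h2 := hge _ _ (h1 2)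
    have h3 := hq1 (ℓ ^ (k * 2))
    rw [hq2] at h3
    have h4 := (abs_le.1 h3).1
    have h5 : (2 : ℝ) ≤ n (ℓ ^ (k * 2)) := by exact_mod_cast h2
    have h6 : 0 < ((k * 2 : ℕ) : ℝ) * q ℓ := by linarith
    have h7 : (0 : ℝ) ≤ ((k * 2 : ℕ) : ℝ) := Nat.cast_nonneg _
    exact pos_of_mul_pos_right h6 h7
  refine ⟨q, ⟨4 * 1, hq3⟩, hq2, ?_, ?_, ?_⟩
  · have h1 : q d - 1 = 0 := by
      refine tr_arch (C := 1) fun k => ?_
      have h2 : n (d ^ k) = k := by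
        apply le_antisymm
        · apply hle
          rw [zpow_natCast]
        · apply hge
          rw [zpow_natCast]
      have h3 := hq1 (d ^ k)
      rw [hq2, h2] at h3
      push_cast at h3
      rw [mul_sub, mul_one]
      exact h3
    linarith
  · rintro ℓ ⟨y, hy, hfix⟩
    have hfixk : ∀ k : ℕ, h (ℓ ^ k) y = y := by
      intro k
      induction k with
      | zero => rw [pow_zero, tr_one]
      | succ k ih => rw [pow_succ, tr_mul, hfix, ih]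
    obtain ⟨a, ha⟩ := hup x hx y hy
    obtain ⟨b, hb⟩ := hdown x hx y hy
    have hb' : x ≤ h (d ^ (b : ℤ)) y := by
      have h1 := (h (d ^ (b : ℤ))).monotone hb.le
      rw [hadd, add_neg_cancel, zpow_zero, tr_one] at h1
      exact h1
    have ha' : h (d ^ (-(a : ℤ))) y ≤ x := by
      have h1 := (h (d ^ (-(a : ℤ)))).monotone ha.le
      rw [hadd, neg_add_cancel, zpow_zero, tr_one] at h1
      exact h1
    refine tr_arch (C := a + b + 1) fun k => ?_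
    have h1 : n (ℓ ^ k) ≤ b + a := by
      apply hle
      calc h (ℓ ^ k) x ≤ h (ℓ ^ k) (h (d ^ (b : ℤ)) y) := (h (ℓ ^ k)).monotone hb'
        _ = h (d ^ (b : ℤ)) y := by rw [hcomx, hfixk]
        _ ≤ h (d ^ (b : ℤ)) (h (d ^ (a : ℤ)) x) := (h (d ^ (b : ℤ))).monotone ha.le
        _ = h (d ^ ((b : ℤ) + a)) x := hadd _ _ _
    have h2 : -(a : ℤ) + -(b : ℤ) ≤ n (ℓ ^ k) := by
      apply hge
      calc h (d ^ (-(a : ℤ) + -(b : ℤ))) x = h (d ^ (-(a : ℤ))) (h (d ^ (-(b : ℤ))) x) := (hadd _ _ _).symm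
        _ ≤ h (d ^ (-(a : ℤ))) y := (h (d ^ (-(a : ℤ)))).monotone hb.le
        _ = h (ℓ ^ k) (h (d ^ (-(a : ℤ))) y) := by rw [hcomx, hfixk]
        _ ≤ h (ℓ ^ k) x := (h (ℓ ^ k)).monotone ha'
    have h3 := hq1 (ℓ ^ k)
    rw [hq2] at h3
    obtain ⟨h4, h5⟩ := abs_le.1 h3
    have h1' : (n (ℓ ^ k) : ℝ) ≤ b + a := by exact_mod_cast h1
    have h2' : -(a : ℝ) + -(b : ℝ) ≤ n (ℓ ^ k) := by exact_mod_cast h2
    rw [abs_le]
    constructor <;> linarith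
  · intro ℓ hℓ
    rcases sign_const (h ℓ) I hI hℓ with h1 | h1
    · exact (hposq ℓ h1).ne'
    · have h2 : ∀ y ∈ I, y < h ℓ⁻¹ y := by
        intro y hy
        have h3 := h1 (h ℓ⁻¹ y) (hinv _ _ hy)
        rw [tr_inv'] at h3
        exact h3
      have h3 := hposq _ h2
      rw [tr_qinv hq3 hq2] at h3
      linarith

end transl

theorem transl {L : Type} [Group L] (h : L →* (ℝ ≃o ℝ)) (I : Set ℝ) (hI : I.OrdConnected)
    (hopen : IsOpen I) (hne : I.Nonempty) (hinv : ∀ (ℓ : L) (x : ℝ), x ∈ I → h ℓ x ∈ I) (d : L)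
    (hd : ∀ ℓ : L, d * ℓ = ℓ * d) (hfree : ∀ x ∈ I, h d x ≠ x) :
    ∃ q : L → ℝ, (∃ D : ℝ, ∀ x y : L, |q (x * y) - q x - q y| ≤ D) ∧
      (∀ (x : L) (n : ℕ), q (x ^ n) = n * q x) ∧ q d = 1 ∧
      (∀ ℓ : L, (∃ x ∈ I, h ℓ x = x) → q ℓ = 0) ∧
      (∀ ℓ : L, (∀ x ∈ I, h ℓ x ≠ x) → q ℓ ≠ 0) := by
  rcases sign_const (h d) I hI hfree with h1 | h1
  · exact transl_pos h I hI hne hinv d hd h1
  · have h2 : ∀ y ∈ I, y < h d⁻¹ y := by
      intro y hy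
      have h3 := h1 (h d⁻¹ y) (hinv _ _ hy)
      rw [tr_inv'] at h3
      exact h3
    obtain ⟨q, ⟨D, hD⟩, hq2, hq3, hq4, hq5⟩ := transl_pos h I hI hne hinv d⁻¹
      (fun ℓ => ((show Commute d ℓ from hd ℓ).inv_left)) h2
    refine ⟨fun ℓ => -q ℓ, ⟨D, fun x y => ?_⟩, fun x n => ?_, ?_, fun ℓ hℓ => ?_, fun ℓ hℓ => ?_⟩
    · have h3 := hD x y
      rw [← abs_neg] at h3
      refine le_trans (le_of_eq ?_) h3
      congr 1
      ring
    · simp only []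
      rw [hq2]
      ring
    · simp only []
      rw [← tr_qinv hD hq2, hq3]
    · simp only []
      rw [hq4 ℓ hℓ, neg_zero]
    · simp only []
      exact neg_ne_zero.2 (hq5 ℓ hℓ)

end Pool.Agent.Work.MP_d3656f_al
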